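import Pool.Agent.H979.BK.Asm

/-! # MP_1e2081_pr, Q1: the answer is yes

Balanced multi-urn chain with `d ≥ 2` urns of `n` balls, `n` balls of each of the `d` colours, moving
`k` balls per urn along a random permutation `σ ~ μ`, `U i j = P(σ i = j)` irreducible. For every
sequence `1 ≤ k_n ≤ n` with `k_n = o(n)` there is cutoff around `n log n / (2 k_n γ)`, `γ` the spectral
gap of `U`; consequently the mixing time is asymptotic to the one of the chains moving one ball per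
urn, divided by `k_n`.
-/

open Filter Topology
open Pool.Agent.H979.BK

namespace Pool.Agent.Results.MP_1e2081_pr.CutoffFewBalls

theorem result (d : ℕ) (μ : Equiv.Perm (Fin d) → ℝ) (hd : 2 ≤ d) (hμ : IsProb μ) (hU : Irred μ) :
    0 < gap μ ∧ ∀ k : ℕ → ℕ, (∀ n, 1 ≤ n → 1 ≤ k n ∧ k n ≤ n) →
      Tendsto (fun n => (k n : ℝ) / n) atTop (𝓝 0) →
      (∀ ε : ℝ, 0 < ε → ε < 1 →
        Tendsto (fun n : ℕ => tmix μ n (k n) ε / (n * Real.log n / (2 * k n * gap μ)))
          atTop (𝓝 1)) ∧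
      (∀ ε ε' : ℝ, 0 < ε → ε < 1 → 0 < ε' → ε' < 1 →
        Tendsto (fun n : ℕ => tmix μ n (k n) ε / (tmix μ n 1 ε' / k n)) atTop (𝓝 1)) ∧
      (∀ ε : ℝ, 0 < ε → ε < 1 →
        Tendsto (fun n : ℕ => tmix μ n (k n) ε / tmix μ n (k n) (1 - ε)) atTop (𝓝 1)) :=
  final_all d μ hd hμ hU

end Pool.Agent.Results.MP_1e2081_pr.CutoffFewBalls
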